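import Pool.Agent.P8H12.SO.Stm3

/-! Project PF of helper12, package GPW (helper4): subgroups of `SL₂(ℤ/l^a)` which contain powers of all
matrices. -/

set_option autoImplicit false

namespace Pool.Agent.P8H4.PF

open Pool.Agent.P8H12.ST

variable {R : Type} [CommRing R]

/-- upper unipotent matrices -/
def up (x : R) : Matrix.SpecialLinearGroup (Fin 2) R :=
  ⟨!![1, x; 0, 1], by simp [Matrix.det_fin_two]⟩

/-- lower unipotent matrices -/
def lo (x : R) : Matrix.SpecialLinearGroup (Fin 2) R :=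
  ⟨!![1, 0; x, 1], by simp [Matrix.det_fin_two]⟩

theorem up_mul (x y : R) : up x * up y = up (x + y) := by
  apply Subtype.ext
  change (!![1, x; 0, 1] : Matrix (Fin 2) (Fin 2) R) * !![1, y; 0, 1] = !![1, x + y; 0, 1]
  rw [Matrix.mul_fin_two]
  simp [add_comm]

theorem lo_mul (x y : R) : lo x * lo y = lo (x + y) := by
  apply Subtype.ext
  change (!![1, 0; x, 1] : Matrix (Fin 2) (Fin 2) R) * !![1, 0; y, 1] = !![1, 0; x + y, 1]
  rw [Matrix.mul_fin_two]
  simp

theorem up_zero : up (0 : R) = 1 := by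
  apply Subtype.ext
  change (!![1, 0; 0, 1] : Matrix (Fin 2) (Fin 2) R) = 1
  rw [Matrix.one_fin_two]

theorem lo_zero : lo (0 : R) = 1 := by
  apply Subtype.ext
  change (!![1, 0; 0, 1] : Matrix (Fin 2) (Fin 2) R) = 1
  rw [Matrix.one_fin_two]

theorem up_pow (x : R) (n : ℕ) : up x ^ n = up (n * x) := by
  induction n with
  | zero => simp [up_zero]
  | succ n ih =>
    rw [pow_succ, ih, up_mul]
    congr 1
    push_cast
    ring

theorem lo_pow (x : R) (n : ℕ) : lo x ^ n = lo (n * x) := by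
  induction n with
  | zero => simp [lo_zero]
  | succ n ih =>
    rw [pow_succ, ih, lo_mul]
    congr 1
    push_cast
    ring

/-- a matrix with a unit in the lower left corner -/
theorem factor {p b c e u : R} (hu : c * u = 1) (h : p * e - b * c = 1)
    (M : Matrix.SpecialLinearGroup (Fin 2) R) (hM : M.1 = !![p, b; c, e]) :
    M = up ((p - 1) * u) * lo c * up ((e - 1) * u) := by
  apply Subtype.ext
  rw [hM]
  change _ = !![1, (p - 1) * u; 0, 1] * !![1, 0; c, 1] * !![1, (e - 1) * u; 0, 1]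
  rw [Matrix.mul_fin_two, Matrix.mul_fin_two]
  have e1 : (1 * 1 + (p - 1) * u * c) * 1 + (1 * 0 + (p - 1) * u * 1) * 0 = p := by
    linear_combination (p - 1) * hu
  have e2 : (1 * 1 + (p - 1) * u * c) * ((e - 1) * u) + (1 * 0 + (p - 1) * u * 1) * 1 = b := by
    linear_combination ((p - 1) * (e - 1) * u + b) * hu + u * h
  have e3 : (0 * 1 + 1 * c) * 1 + (0 * 0 + 1 * 1) * 0 = c := by ring
  have e4 : (0 * 1 + 1 * c) * ((e - 1) * u) + (0 * 0 + 1 * 1) * 1 = e := by
    linear_combination (e - 1) * hu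
  rw [e1, e2, e3, e4]

theorem gpw : S_GPW := by
  intro l a d hl hd ha S hS
  have hlf : Fact l.Prime := ⟨hl⟩
  have hne : NeZero (l ^ a) := ⟨pow_ne_zero _ hl.ne_zero⟩
  have hdl : d < l := (le_max_left _ _).trans_lt hd
  have hdvd : l ∣ l ^ a := dvd_pow_self l (by omega)
  obtain ⟨φ, hφ⟩ : ∃ φ : ZMod (l ^ a) →+* ZMod l, φ = ZMod.castHom hdvd (ZMod l) := ⟨_, rfl⟩
  have hunit : ∀ x : ZMod (l ^ a), φ x ≠ 0 → IsUnit x := by
    intro x hx
    rw [← ZMod.natCast_zmod_val x] at hx ⊢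
    rw [map_natCast, Ne, ZMod.natCast_eq_zero_iff] at hx
    rw [ZMod.isUnit_iff_coprime]
    exact ((Nat.Prime.coprime_iff_not_dvd hl).2 hx).symm.pow_right a
  have hr : ∀ r : ℕ, 1 ≤ r → r ≤ d → IsUnit (r : ZMod (l ^ a)) := by
    intro r h1 h2
    apply hunit
    rw [map_natCast, Ne, ZMod.natCast_eq_zero_iff]
    intro h3
    have := Nat.le_of_dvd h1 h3
    omega
  have hup : ∀ x : ZMod (l ^ a), up x ∈ S := by
    intro x
    obtain ⟨r, h1, h2, h3⟩ := hS (up 1)
    rw [up_pow, mul_one] at h3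
    obtain ⟨v, hv⟩ := (hr r h1 h2).exists_right_inv
    have h4 := S.pow_mem h3 (x * v).val
    rw [up_pow, ZMod.natCast_zmod_val, mul_assoc, mul_comm v, hv, mul_one] at h4
    exact h4
  have hlo : ∀ x : ZMod (l ^ a), lo x ∈ S := by
    intro x
    obtain ⟨r, h1, h2, h3⟩ := hS (lo 1)
    rw [lo_pow, mul_one] at h3
    obtain ⟨v, hv⟩ := (hr r h1 h2).exists_right_inv
    have h4 := S.pow_mem h3 (x * v).val
    rw [lo_pow, ZMod.natCast_zmod_val, mul_assoc, mul_comm v, hv, mul_one] at h4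
    exact h4
  have hgen : ∀ M : Matrix.SpecialLinearGroup (Fin 2) (ZMod (l ^ a)), φ (M.1 1 0) ≠ 0 → M ∈ S := by
    intro M hM
    obtain ⟨u, hu⟩ := (hunit _ hM).exists_right_inv
    have hdet : M.1 0 0 * M.1 1 1 - M.1 0 1 * M.1 1 0 = 1 := by
      rw [← Matrix.det_fin_two]
      exact M.2
    rw [factor hu hdet M (Matrix.eta_fin_two _)]
    exact S.mul_mem (S.mul_mem (hup _) (hlo _)) (hup _)
  rw [Subgroup.eq_top_iff']
  intro M
  by_cases hc : φ (M.1 1 0) = 0
  · have hdet : M.1 0 0 * M.1 1 1 - M.1 0 1 * M.1 1 0 = 1 := by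
      rw [← Matrix.det_fin_two]
      exact M.2
    have h1 : φ (M.1 0 0) ≠ 0 := by
      intro h0
      have h2 := congrArg φ hdet
      rw [map_sub, map_mul, map_mul, hc, h0, map_one] at h2
      simp at h2
    have h2 : lo 1 * M ∈ S := by
      apply hgen
      have h3 : (lo 1 * M).1 1 0 = M.1 0 0 + M.1 1 0 := by
        change ((!![1, 0; 1, 1] : Matrix (Fin 2) (Fin 2) (ZMod (l ^ a))) * M.1) 1 0 = _
        rw [Matrix.mul_apply, Fin.sum_univ_two]
        simp
      rw [h3, map_add, hc, add_zero]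
      exact h1
    have h3 : M = lo (-1) * (lo 1 * M) := by
      rw [← mul_assoc, lo_mul, neg_add_cancel, lo_zero, one_mul]
    rw [h3]
    exact S.mul_mem (hlo _) h2
  · exact hgen M hc

end Pool.Agent.P8H4.PF
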